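import Mathlib
import Pool.Agent.T9h29.NA.Defs

/-!
# Coordinates of the kernel of a matrix all of whose maximal minors are nonzero
-/

namespace Pool.Agent.T9h40.NA

open Pool.Agent.T9h29.NA Matrix

universe u

variable {K : Type u} [Field K]

/-- A bijection `Fin r ⊕ Fin (e + 1) ≃ κ` extending an embedding of the second summand. -/
theorem exists_equiv_extend {r e : ℕ} {κ : Type} [Fintype κ] [DecidableEq κ]
    (hc : Fintype.card κ = r + (e + 1)) (i : Fin (e + 1) ↪ κ) :
    ∃ σ : Fin r ⊕ Fin (e + 1) ≃ κ, ∀ k, σ (Sum.inr k) = i k := by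
  classical
  have hcard : Fintype.card {c : κ // c ∉ Set.range i} = r := by
    have h1 : Fintype.card {c : κ // c ∈ Set.range i} = e + 1 :=
      (Fintype.card_congr (Equiv.ofInjective i i.injective)).symm.trans (Fintype.card_fin (e + 1))
    have h2 := Fintype.card_subtype_compl (fun c : κ => c ∈ Set.range i)
    rw [h1, hc] at h2
    omega
  obtain ⟨f⟩ : Nonempty (Fin r ≃ {c : κ // c ∉ Set.range i}) :=
    ⟨(Fintype.equivFinOfCardEq hcard).symm⟩
  refine ⟨((Equiv.sumComm _ _).trans (Equiv.sumCongr (Equiv.ofInjective i i.injective) f)).trans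
    (Equiv.sumCompl (fun c : κ => c ∈ Set.range i)), fun k => ?_⟩
  simp [Equiv.sumCompl]

/-- Coordinates of the kernel of a matrix with nonzero maximal minors with respect to `e + 1`
chosen coordinates; all the maximal minors of the matrix `G` of the coordinates are nonzero. -/
theorem exists_G {r e : ℕ} {κ : Type} [Fintype κ] [DecidableEq κ] (N : Matrix (Fin r) κ K)
    (hN : AllMinors N) (hc : Fintype.card κ = r + (e + 1)) (i : Fin (e + 1) ↪ κ) :
    ∃ G : Matrix κ (Fin (e + 1)) K,
      (∀ (F : Type u) [AddCommGroup F] [Module K F] (y : κ → F),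
        (∀ j, ∑ c, N j c • y c = 0) → ∀ v, y v = ∑ k, G v k • y (i k)) ∧
      (∀ k l, G (i k) l = if k = l then 1 else 0) ∧
      ∀ i' : Fin (e + 1) ↪ κ, (G.submatrix i' id).det ≠ 0 := by
  classical
  obtain ⟨σ, hσ⟩ := exists_equiv_extend hc i
  set NJ : Matrix (Fin r) (Fin r) K := N.submatrix id (fun j => σ (Sum.inl j)) with hNJ
  set NI : Matrix (Fin r) (Fin (e + 1)) K := N.submatrix id (fun k => σ (Sum.inr k)) with hNI
  have hdet : NJ.det ≠ 0 := hN _ (fun a b hab => by simpa using hab)
  have hunit : IsUnit NJ.det := isUnit_iff_ne_zero.mpr hdet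
  set H : Matrix (Fin r) (Fin (e + 1)) K := - (NJ⁻¹ * NI) with hH
  set G : Matrix κ (Fin (e + 1)) K :=
    fun v l => Sum.elim (fun j => H j l) (fun k => if k = l then (1 : K) else 0) (σ.symm v) with hG
  have hGl : ∀ j l, G (σ (Sum.inl j)) l = H j l := fun j l => by simp [hG]
  have hGr : ∀ k l, G (σ (Sum.inr k)) l = if k = l then 1 else 0 := fun k l => by simp [hG]
  -- N G = 0
  have hNG : ∀ j l, ∑ c, N j c * G c l = 0 := by
    intro j l
    rw [← Equiv.sum_comp σ, Fintype.sum_sum_type]
    simp only [hGl, hGr]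
    have h1 : ∑ x, N j (σ (Sum.inl x)) * H x l = (NJ * H) j l := by
      rw [Matrix.mul_apply]
      rfl
    have h2 : ∑ x, N j (σ (Sum.inr x)) * (if x = l then (1 : K) else 0) = NI j l := by
      simp [hNI]
    have h3 : NJ * H = - NI := by
      rw [hH, Matrix.mul_neg, Matrix.mul_nonsing_inv_cancel_left _ _ hunit]
    rw [h1, h2, h3, Matrix.neg_apply, neg_add_cancel]
  refine ⟨G, ?_, ?_, ?_⟩
  · intro F _ _ y hy v
    obtain ⟨s, rfl⟩ := σ.surjective v
    rcases s with j | k
    · -- solve for the coordinates of J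
      have h1 : ∀ j', ∑ x, NJ j' x • y (σ (Sum.inl x)) = - ∑ k, NI j' k • y (σ (Sum.inr k)) := by
        intro j'
        have := hy j'
        rw [← Equiv.sum_comp σ, Fintype.sum_sum_type] at this
        exact eq_neg_of_add_eq_zero_left this
      have h2 : ∑ j', NJ⁻¹ j j' • (∑ x, NJ j' x • y (σ (Sum.inl x))) = y (σ (Sum.inl j)) := by
        have : ∀ x, ∑ j', NJ⁻¹ j j' * NJ j' x = (1 : Matrix (Fin r) (Fin r) K) j x := by
          intro x
          rw [← Matrix.nonsing_inv_mul NJ hunit, Matrix.mul_apply]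
        simp only [Finset.smul_sum, smul_smul]
        rw [Finset.sum_comm]
        simp only [← Finset.sum_smul, this]
        simp [Matrix.one_apply]
      rw [← h2]
      simp only [h1, smul_neg, Finset.smul_sum, smul_smul, Finset.sum_neg_distrib]
      rw [Finset.sum_comm, ← Finset.sum_neg_distrib]
      refine Finset.sum_congr rfl fun k _ => ?_
      rw [hGl, ← Finset.sum_smul, ← neg_smul, hσ, hH, Matrix.neg_apply, Matrix.mul_apply]
    · rw [Finset.sum_eq_single k]
      · rw [hGr, if_pos rfl, one_smul, hσ]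
      · intro l _ hl
        rw [hGr, if_neg (Ne.symm hl), zero_smul]
      · intro h
        exact absurd (Finset.mem_univ _) h
  · intro k l
    rw [← hσ, hGr]
  · intro i' hzero
    obtain ⟨z, hz0, hz⟩ := Matrix.exists_mulVec_eq_zero_iff.mpr hzero
    obtain ⟨σ', hσ'⟩ := exists_equiv_extend hc i'
    set y : κ → K := fun v => ∑ l, G v l * z l with hy
    have hyi' : ∀ k, y (i' k) = 0 := by
      intro k
      have := congrFun hz k
      simpa [Matrix.mulVec, dotProduct, hy] using this
    have hNy : ∀ j, ∑ c, N j c * y c = 0 := by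
      intro j
      simp only [hy, Finset.mul_sum, ← mul_assoc]
      rw [Finset.sum_comm]
      refine Finset.sum_eq_zero fun l _ => ?_
      rw [← Finset.sum_mul, hNG, zero_mul]
    have hdet' : (N.submatrix id (fun j => σ' (Sum.inl j))).det ≠ 0 :=
      hN _ (fun a b hab => by simpa using hab)
    have hyJ : (fun j => y (σ' (Sum.inl j))) = 0 := by
      refine Matrix.eq_zero_of_mulVec_eq_zero hdet' ?_
      funext j
      have := hNy j
      rw [← Equiv.sum_comp σ', Fintype.sum_sum_type] at this
      simp only [hσ', hyi', mul_zero, Finset.sum_const_zero, add_zero] at this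
      simpa [Matrix.mulVec, dotProduct] using this
    have hy0 : ∀ v, y v = 0 := by
      intro v
      obtain ⟨s, rfl⟩ := σ'.surjective v
      rcases s with j | k
      · exact congrFun hyJ j
      · rw [hσ']; exact hyi' k
    apply hz0
    funext k
    have := hy0 (σ (Sum.inr k))
    simpa [hy, hGr] using this

end Pool.Agent.T9h40.NA
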