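import Pool.Agent.T9h40.NA.Omega
import Pool.Agent.T9h46.NA.Emb

/-!
# Two reference data give proportional forms
-/

namespace Pool.Agent.T9h40.NA

open MvPolynomial KaehlerDifferential Pool.Agent.T9h29.NA Pool.Agent.T9h22.RS
  Pool.Agent.T9h46.NA

universe u

variable {K : Type u} [Field K] [CharZero K] [IsAlgClosed K] {B : Type} [Fintype B]
  [DecidableEq B] {ι : B → Type} [∀ b, Fintype (ι b)] [∀ b, DecidableEq (ι b)] {r e : B → ℕ}
  (M : ∀ b, Matrix (Fin (r b)) (ι b) K) {A : Type*} [AddCommGroup A] (w : Var ι → A)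
  [IsDomain (Rg M)]

omit [CharZero K] [IsAlgClosed K] in
theorem fam_eq (ch : ∀ b, Fin (e b + 1) ↪ ι b) (x : Option (Σ b, Fin (e b))) :
    fam M w ch x = famA K ch (T M w ch) (U M w ch) x := by
  rcases x with _ | p <;> rfl

/-- **Two reference data give proportional forms.** -/
theorem omega_gen (hM : ∀ b, AllMinors (M b)) (hc : ∀ b, Fintype.card (ι b) = 3 * r b + 1)
    (he : ∀ b, e b = 2 * r b) (hr : ∀ b, 1 ≤ r b) (hw : ∀ v, 3 • w v = 0)
    (hsum : ∀ b, ∑ c, w ⟨b, c⟩ = 0) (ch ch' : ∀ b, Fin (e b + 1) ↪ ι b) {d : ℕ}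
    (q : Fin d ≃ Option (Σ b, Fin (e b))) :
    ∃ κ : K, κ ≠ 0 ∧ omega M w ch' q = κ • omega M w ch q := by
  have hx : ∀ v, xE M v ≠ 0 := fun v => xE_ne_zero M hM hc hr v
  have hx3 : ∀ v, xE M v ^ 3 ≠ 0 := fun v => pow_ne_zero 3 (hx v)
  have hinj := emb_injective M w
  have hT : ∀ ch : ∀ b, Fin (e b + 1) ↪ ι b, T M w ch ≠ 0 := by
    intro ch h
    have := emb_T M w hM hc hr hw ch
    rw [h, map_zero] at this
    exact Finset.prod_ne_zero_iff.mpr (fun b _ => hx3 _) this.symm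
  have hU : ∀ (ch : ∀ b, Fin (e b + 1) ↪ ι b) v, U M w ch v ≠ 0 := by
    intro ch v h
    have := emb_U M w hM hc hr hw ch v
    rw [h, map_zero] at this
    exact div_ne_zero (hx3 v) (hx3 _) this.symm
  obtain ⟨κ, hκ, H⟩ := omega_change (F := FS M w)
    (N := ⋀[FS M w]^d Ω[FS M w⁄K]) M hM
    (fun b => by rw [hc, he]; ring) ch ch' (T M w ch) (T M w ch') (U M w ch) (U M w ch')
    (hT ch) (hU ch)
    (fun b => hinj (by rw [emb_U M w hM hc hr hw, div_self (hx3 _), map_one]))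
    (fun b j => sum_M_U M w hM hc hr hw ch b j)
    (hinj (by
      rw [emb_T M w hM hc hr hw, map_mul, emb_T M w hM hc hr hw, map_prod,
        ← Finset.prod_mul_distrib]
      refine Finset.prod_congr rfl fun b _ => ?_
      rw [emb_U M w hM hc hr hw, mul_div_cancel₀ _ (hx3 _)]))
    (fun v => hinj (by
      rw [map_div₀, emb_U M w hM hc hr hw, emb_U M w hM hc hr hw, emb_U M w hM hc hr hw]
      have h1 := hx3 v
      have h2 := hx3 ⟨v.1, ch v.1 0⟩
      have h3 := hx3 ⟨v.1, ch' v.1 0⟩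
      rw [div_div_div_cancel_right₀ h2]))
  refine ⟨κ, hκ, ?_⟩
  have h := H q (exteriorPower.ιMulti (FS M w) d)
  have hPsi : Psi M w ch' = Psi M w ch * ∏ b, U M w ch ⟨b, ch' b 0⟩ ^ (e b + 1) := by
    apply hinj
    rw [map_mul, emb_Psi M w hM hc hr hw hsum, emb_Psi M w hM hc hr hw hsum, map_prod,
      div_mul_eq_mul_div, ← Finset.prod_mul_distrib]
    congr 1
    refine Finset.prod_congr rfl fun b _ => ?_
    have key : ∀ (x y : ER M) (n : ℕ), x ≠ 0 → n = 2 * r b + 1 →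
        y ^ (3 * (2 * r b + 1)) = x ^ (3 * (2 * r b + 1)) * (y ^ 3 / x ^ 3) ^ n := by
      intro x y n hx hn
      rw [hn, div_pow, ← pow_mul, ← pow_mul, mul_div_cancel₀ _ (pow_ne_zero _ hx)]
    rw [map_pow, emb_U M w hM hc hr hw]
    exact key _ _ _ (hx _) (by rw [he])
  simp only [omega, fam_eq]
  rw [hPsi, mul_smul, h, smul_comm, algebraMap_smul]

end Pool.Agent.T9h40.NA
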