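import Mathlib

/-!
# The Jacobian of quotients of affine linear forms

For `l_k = L_k0 + ∑_j L_kj a_j` (`0 ≤ k ≤ e`, `l_0 ≠ 0`) the Jacobian matrix of the `l_k / l_0`
(`k ≥ 1`) with respect to the `a_j` is `l_0⁻¹ (L_kj - (l_k / l_0) L_0j)`, with determinant
`det L / l_0^(e+1)`.
-/

namespace Pool.Agent.T9h40.NA

open Matrix

section Det

variable {F : Type*} [Field F] {e : ℕ}

/-- The determinant of the Jacobian matrix of the quotients `l_k / l_0`. -/
theorem det_jacobian (A : Matrix (Fin (e + 1)) (Fin (e + 1)) F) (a : Fin e → F)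
    (l : Fin (e + 1) → F) (hl : ∀ k, l k = A k 0 + ∑ j, A k (Fin.succ j) * a j) (h0 : l 0 ≠ 0) :
    (Matrix.of fun k j : Fin e =>
      (l 0)⁻¹ * (A k.succ j.succ - l k.succ / l 0 * A 0 j.succ)).det = A.det / l 0 ^ (e + 1) := by
  classical
  -- column operation
  set A' : Matrix (Fin (e + 1)) (Fin (e + 1)) F := A.updateCol 0 l with hA'
  have h1 : A'.det = A.det := by
    have h := Matrix.det_updateCol_sum A 0 (Fin.cons 1 a : Fin (e + 1) → F)
    simp only [Fin.cons_zero, one_smul] at h
    rw [← h, hA']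
    congr 1
    congr 1
    funext k
    rw [hl k, Fin.sum_univ_succ]
    simp [mul_comm]
  -- row operation
  set c : Fin (e + 1) → F := Fin.cons 0 (fun k => - (l k.succ / l 0)) with hc
  set A'' : Matrix (Fin (e + 1)) (Fin (e + 1)) F := Matrix.of fun i j => A' i j + c i * A' 0 j
    with hA''
  have h2 : A''.det = A'.det :=
    Matrix.det_eq_of_forall_row_eq_smul_add_const c 0 (by simp [hc]) (fun i j => rfl)
  have h3 : A''.det = l 0 * (Matrix.of fun k j : Fin e =>
      (A k.succ j.succ - l k.succ / l 0 * A 0 j.succ)).det := by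
    rw [Matrix.det_succ_column_zero, Finset.sum_eq_single 0]
    · have e1 : A'' 0 0 = l 0 := by simp [hA'', hA', hc]
      have e2 : A''.submatrix (Fin.succAbove 0) Fin.succ = Matrix.of fun k j : Fin e =>
          (A k.succ j.succ - l k.succ / l 0 * A 0 j.succ) := by
        ext k j
        simp [hA'', hA', hc, Matrix.updateCol_apply]
        ring
      rw [e1, e2]
      simp
    · intro i _ hi
      have : A'' i 0 = 0 := by
        obtain ⟨k, rfl⟩ := Fin.exists_succ_eq.mpr hi
        simp only [hA'', hA', hc, Matrix.of_apply, Matrix.updateCol_self, Fin.cons_succ]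
        field_simp
        ring
      rw [this]
      simp
    · intro h
      exact absurd (Finset.mem_univ _) h
  have h4 : (Matrix.of fun k j : Fin e =>
      (l 0)⁻¹ * (A k.succ j.succ - l k.succ / l 0 * A 0 j.succ)).det
      = (l 0)⁻¹ ^ e * (Matrix.of fun k j : Fin e =>
      (A k.succ j.succ - l k.succ / l 0 * A 0 j.succ)).det := by
    have : (Matrix.of fun k j : Fin e =>
      (l 0)⁻¹ * (A k.succ j.succ - l k.succ / l 0 * A 0 j.succ)) = (l 0)⁻¹ • (Matrix.of fun k j : Fin e =>
      (A k.succ j.succ - l k.succ / l 0 * A 0 j.succ)) := by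
      ext k j
      simp
    rw [this, Matrix.det_smul]
    simp
  rw [h4, ← h1, ← h2, h3]
  generalize (Matrix.of fun k j : Fin e =>
      (A k.succ j.succ - l k.succ / l 0 * A 0 j.succ)).det = D
  rw [pow_succ, inv_pow]
  field_simp

end Det

section Wedge

variable {F : Type*} [Field F] {M N : Type*} [AddCommGroup M] [Module F M] [AddCommGroup N]
  [Module F N] {ι : Type*} [Fintype ι] [DecidableEq ι]

/-- An alternating map evaluated at linear combinations of as many vectors: the determinant
comes out. -/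
theorem alternating_map_det (g : M [⋀^ι]→ₗ[F] N) (v : ι → M) (J : Matrix ι ι F) :
    g (fun k => ∑ j, J k j • v j) = J.det • g v := by
  classical
  set φ : (ι → F) →ₗ[F] M := Fintype.linearCombination F v with hφ
  have key : g.compLinearMap φ
      = (LinearMap.toSpanSingleton F N (g v)).compAlternatingMap (Matrix.detRowAlternating) := by
    refine Module.Basis.ext_alternating (Pi.basisFun F ι) fun s hs => ?_
    obtain ⟨σ, rfl⟩ : ∃ σ : Equiv.Perm ι, s = σ :=
      ⟨Equiv.ofBijective s (Finite.injective_iff_bijective.mp hs), rfl⟩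
    have h1 : (g.compLinearMap φ) (fun i => (Pi.basisFun F ι) (σ i))
        = g (fun i => v (σ i)) := by
      simp [hφ, Fintype.linearCombination_apply, Pi.single_apply, AlternatingMap.compLinearMap_apply]
    have h2 : g (fun i => v (σ i)) = Equiv.Perm.sign σ • g v := g.map_perm v σ
    have h3 : (Matrix.detRowAlternating : (ι → F) [⋀^ι]→ₗ[F] F)
        (fun i => (Pi.basisFun F ι) (σ i)) = Equiv.Perm.sign σ • (1 : F) := by
      have := (Matrix.detRowAlternating : (ι → F) [⋀^ι]→ₗ[F] F).map_perm (Pi.basisFun F ι) σ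
      rw [show (fun i => (Pi.basisFun F ι) (σ i)) = (Pi.basisFun F ι) ∘ σ from rfl, this]
      congr 1
      have : (Pi.basisFun F ι : ι → ι → F) = (1 : Matrix ι ι F) := by
        funext i j
        simp [Matrix.one_apply, Pi.single_apply, eq_comm]
      rw [this]
      exact Matrix.det_one
    rw [h1, h2]
    simp only [LinearMap.compAlternatingMap_apply, LinearMap.toSpanSingleton_apply]
    rw [h3]
    rcases Int.units_eq_one_or (Equiv.Perm.sign σ) with h | h <;> simp [h]
  have h := congrArg (fun f : (ι → F) [⋀^ι]→ₗ[F] N => f (fun k => J k)) key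
  have h5 : (g.compLinearMap φ) (fun k => J k) = g (fun k => ∑ j, J k j • v j) := by
    simp [hφ, Fintype.linearCombination_apply, AlternatingMap.compLinearMap_apply]
  rw [← h5]
  exact h

/-- The determinant of a block diagonal matrix with blocks of different sizes. -/
theorem det_blockDiagonal {β : Type*} [Fintype β] [DecidableEq β] {κ : β → Type*}
    [∀ b, Fintype (κ b)] [∀ b, DecidableEq (κ b)] (J : ∀ b, Matrix (κ b) (κ b) F) :
    (Matrix.blockDiagonal' J).det = ∏ b, (J b).det := by
  classical
  letI : LinearOrder β := LinearOrder.lift' (Fintype.equivFin β) (Fintype.equivFin β).injective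
  have h := Matrix.BlockTriangular.det_fintype (Matrix.blockTriangular_blockDiagonal' J)
  rw [h]
  refine Finset.prod_congr rfl fun b _ => ?_
  have h2 := Matrix.det_submatrix_equiv_self
    (e := (⟨fun k => ⟨⟨b, k⟩, rfl⟩, fun p => p.2 ▸ p.1.2, fun k => rfl, by
      rintro ⟨⟨b', k⟩, hb⟩
      subst hb
      rfl⟩ : κ b ≃ {p : Σ b, κ b // p.1 = b}))
    ((Matrix.blockDiagonal' J).toSquareBlock Sigma.fst b)
  rw [← h2]
  congr 1
  ext i j
  simp [Matrix.toSquareBlock_def]

/-- The same with blocks and one further vector `t`, which is changed by a linear combination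
of the other vectors. -/
theorem alternating_map_blocks {β : Type*} [Fintype β] [DecidableEq β] {κ : β → Type*}
    [∀ b, Fintype (κ b)] [∀ b, DecidableEq (κ b)] (g : M [⋀^(Unit ⊕ (Σ b, κ b))]→ₗ[F] N)
    (t t' : M) (v v' : (Σ b, κ b) → M) (J : ∀ b, Matrix (κ b) (κ b) F)
    (hv : ∀ b k, v' ⟨b, k⟩ = ∑ j, J b k j • v ⟨b, j⟩) (c : (Σ b, κ b) → F)
    (ht : t' = t + ∑ p, c p • v p) :
    g (Sum.elim (fun _ => t') v') = (∏ b, (J b).det) • g (Sum.elim (fun _ => t) v) := by
  classical
  set Q : Matrix (Unit ⊕ (Σ b, κ b)) (Unit ⊕ (Σ b, κ b)) F :=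
    Matrix.fromBlocks 1 (Matrix.of fun _ p => c p) 0 (Matrix.blockDiagonal' J) with hQ
  have h := alternating_map_det g (Sum.elim (fun _ => t) v) Q
  have hdet : Q.det = ∏ b, (J b).det := by
    rw [hQ, Matrix.det_fromBlocks_zero₂₁, Matrix.det_one, one_mul, det_blockDiagonal]
  rw [← hdet, ← h]
  congr 1
  funext x
  rcases x with x | ⟨b, k⟩
  · simp [hQ, ht, Fintype.sum_sum_type]
  · simp only [Sum.elim_inr, Fintype.sum_sum_type, hQ, Matrix.fromBlocks_apply₂₁,
      Matrix.fromBlocks_apply₂₂, Matrix.zero_apply, zero_smul, Finset.sum_const_zero, zero_add,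
      Fintype.sum_sigma]
    rw [hv, Finset.sum_eq_single b]
    · refine Finset.sum_congr rfl fun j _ => ?_
      rw [Matrix.blockDiagonal'_apply_eq]
    · intro b' _ hb'
      refine Finset.sum_eq_zero fun j _ => ?_
      rw [Matrix.blockDiagonal'_apply_ne J _ _ (Ne.symm hb'), zero_smul]
    · intro h; exact absurd (Finset.mem_univ _) h

end Wedge

section Kaehler

variable {K F : Type*} [Field K] [Field F] [Algebra K F]

/-- The differential of a quotient. -/
theorem D_div {M : Type*} [AddCommGroup M] [Module F M] [Module K M] (D : Derivation K F M)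
    (x y : F) (hy : y ≠ 0) : D (x / y) = y⁻¹ • (D x - (x / y) • D y) := by
  have h1 : D x = (x / y) • D y + y • D (x / y) := by
    conv_lhs => rw [show x = (x / y) * y from (div_mul_cancel₀ x hy).symm]
    rw [Derivation.leibniz]
  rw [h1, add_sub_cancel_left, smul_smul, inv_mul_cancel₀ hy, one_smul]

/-- The differential of the affine linear form `l = L_0 + ∑ L_j a_j`. -/
theorem D_affine {M : Type*} [AddCommGroup M] [Module F M] [Module K M] (D : Derivation K F M)
    {κ : Type*} [Fintype κ] (L0 : K) (L : κ → K) (a : κ → F) :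
    D (algebraMap K F L0 + ∑ j, algebraMap K F (L j) * a j)
      = ∑ j, algebraMap K F (L j) • D (a j) := by
  rw [map_add, D.map_algebraMap, zero_add, map_sum]
  refine Finset.sum_congr rfl fun j _ => ?_
  rw [Derivation.leibniz, D.map_algebraMap, smul_zero, add_zero]

/-- The differentials of the quotients `l_k / l_0` in terms of the differentials of the `a_j`. -/
theorem D_quot {M : Type*} [AddCommGroup M] [Module F M] [Module K M] (D : Derivation K F M)
    {e : ℕ} (L : Matrix (Fin (e + 1)) (Fin (e + 1)) K) (a : Fin e → F) (l : Fin (e + 1) → F)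
    (hl : ∀ k, l k = algebraMap K F (L k 0) + ∑ j, algebraMap K F (L k (Fin.succ j)) * a j)
    (h0 : l 0 ≠ 0) (k : Fin e) :
    D (l k.succ / l 0) = ∑ j : Fin e, ((l 0)⁻¹ * (algebraMap K F (L k.succ j.succ)
      - l k.succ / l 0 * algebraMap K F (L 0 j.succ))) • D (a j) := by
  rw [D_div D _ _ h0]
  conv_lhs =>
    rw [show D (l k.succ) = ∑ j : Fin e, algebraMap K F (L k.succ j.succ) • D (a j) by
          rw [hl, D_affine],
      show D (l 0) = ∑ j : Fin e, algebraMap K F (L 0 j.succ) • D (a j) by
          rw [hl, D_affine]]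
  rw [Finset.smul_sum, ← Finset.sum_sub_distrib, Finset.smul_sum]
  refine Finset.sum_congr rfl fun j _ => ?_
  rw [smul_smul, ← sub_smul, smul_smul]

/-- **The wedge form of the determinant formula**: for every `F`-multilinear alternating map `g`
of the differentials,
`g (D (l_k / l_0))_k = (det L / l_0 ^ (e + 1)) g (D a_j)_j`. -/
theorem wedge_quot {M N : Type*} [AddCommGroup M] [Module F M] [Module K M] [AddCommGroup N]
    [Module F N] (D : Derivation K F M) {e : ℕ} (g : M [⋀^(Fin e)]→ₗ[F] N)
    (L : Matrix (Fin (e + 1)) (Fin (e + 1)) K) (a : Fin e → F) (l : Fin (e + 1) → F)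
    (hl : ∀ k, l k = algebraMap K F (L k 0) + ∑ j, algebraMap K F (L k (Fin.succ j)) * a j)
    (h0 : l 0 ≠ 0) :
    g (fun k => D (l k.succ / l 0))
      = (algebraMap K F L.det / l 0 ^ (e + 1)) • g (fun j => D (a j)) := by
  have h := det_jacobian (L.map (algebraMap K F)) a l (fun k => by simpa using hl k) h0
  rw [show algebraMap K F L.det = (L.map (algebraMap K F)).det from
    RingHom.map_det (algebraMap K F) L, ← h, ← alternating_map_det]
  congr 1
  funext k
  rw [D_quot D L a l hl h0 k]
  rfl

/-- The block version, with one further form `t`: `t' - t` is a linear combination of the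
`D a_j`. -/
theorem wedge_quot_blocks {M N : Type*} [AddCommGroup M] [Module F M] [Module K M]
    [AddCommGroup N] [Module F N] (D : Derivation K F M) {β : Type*} [Fintype β] [DecidableEq β]
    {e : β → ℕ} (g : M [⋀^(Unit ⊕ (Σ b, Fin (e b)))]→ₗ[F] N)
    (L : ∀ b, Matrix (Fin (e b + 1)) (Fin (e b + 1)) K) (a : ∀ b, Fin (e b) → F)
    (l : ∀ b, Fin (e b + 1) → F)
    (hl : ∀ b k, l b k = algebraMap K F (L b k 0)
      + ∑ j, algebraMap K F (L b k (Fin.succ j)) * a b j)
    (h0 : ∀ b, l b 0 ≠ 0) (t t' : M) (c : (Σ b, Fin (e b)) → F)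
    (ht : t' = t + ∑ p, c p • D (a p.1 p.2)) :
    g (Sum.elim (fun _ => t') (fun p => D (l p.1 p.2.succ / l p.1 0)))
      = (∏ b, (algebraMap K F (L b).det / l b 0 ^ (e b + 1))) •
        g (Sum.elim (fun _ => t) (fun p => D (a p.1 p.2))) := by
  rw [alternating_map_blocks g t t' (fun p => D (a p.1 p.2))
    (fun p => D (l p.1 p.2.succ / l p.1 0))
    (fun b => Matrix.of fun k j : Fin (e b) => (l b 0)⁻¹ * (algebraMap K F (L b k.succ j.succ)
      - l b k.succ / l b 0 * algebraMap K F (L b 0 j.succ)))
    (fun b k => D_quot D (L b) (a b) (l b) (hl b) (h0 b) k) c ht]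
  congr 1
  refine Finset.prod_congr rfl fun b _ => ?_
  have h := det_jacobian ((L b).map (algebraMap K F)) (a b) (l b)
    (fun k => by simpa using hl b k) (h0 b)
  rw [show algebraMap K F (L b).det = ((L b).map (algebraMap K F)).det from
    RingHom.map_det (algebraMap K F) (L b), ← h]
  rfl

end Kaehler

end Pool.Agent.T9h40.NA
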