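import Pool.Agent.T9h40.NA.DetFormula
import Pool.Agent.T9h40.NA.GMat
import Pool.Agent.T9h22.RS.Data

/-!
# Two reference data give proportional forms: the abstract computation
-/

namespace Pool.Agent.T9h40.NA

open Pool.Agent.T9h29.NA Matrix KaehlerDifferential

universe u

variable {K F : Type u} [Field K] [Field F] [Algebra K F] {B : Type} [Fintype B]
  [DecidableEq B] {ι : B → Type} [∀ b, Fintype (ι b)] [∀ b, DecidableEq (ι b)] {r e : B → ℕ}

/-- The family `dlog T`, `dU_i`. -/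
noncomputable def famA (K : Type u) {F : Type u} [Field K] [Field F] [Algebra K F]
    (ch : ∀ b, Fin (e b + 1) ↪ ι b) (T : F) (U : Var ι → F) :
    Option (Σ b, Fin (e b)) → Ω[F⁄K]
  | none => T⁻¹ • D K F T
  | some p => D K F (U ⟨p.1, ch p.1 p.2.succ⟩)

/-- The change of the reference data. -/
theorem omega_change (M : ∀ b, Matrix (Fin (r b)) (ι b) K) (hM : ∀ b, AllMinors (M b))
    (hc : ∀ b, Fintype.card (ι b) = r b + (e b + 1)) (ch ch' : ∀ b, Fin (e b + 1) ↪ ι b)
    (T T' : F) (U U' : Var ι → F) (hT : T ≠ 0) (hU0 : ∀ v, U v ≠ 0)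
    (hU1 : ∀ b, U ⟨b, ch b 0⟩ = 1)
    (hsum : ∀ b j, ∑ c, algebraMap K F (M b j c) * U ⟨b, c⟩ = 0)
    (hT' : T' = T * ∏ b, U ⟨b, ch' b 0⟩) (hU' : ∀ v, U' v = U v / U ⟨v.1, ch' v.1 0⟩)
    {N : Type*} [AddCommGroup N] [Module F N] :
    ∃ κ : K, κ ≠ 0 ∧ ∀ {d : ℕ} (q : Fin d ≃ Option (Σ b, Fin (e b)))
      (g : Ω[F⁄K] [⋀^Fin d]→ₗ[F] N),
      (∏ b, U ⟨b, ch' b 0⟩ ^ (e b + 1)) • g (fun i => famA K ch' T' U' (q i))
        = algebraMap K F κ • g (fun i => famA K ch T U (q i)) := by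
  classical
  choose G hG1 hG2 hG3 using fun b => exists_G (M b) (hM b) (hc b) (ch b)
  -- the matrices of the new coordinates
  set L : ∀ b, Matrix (Fin (e b + 1)) (Fin (e b + 1)) K := fun b => (G b).submatrix (ch' b) id
    with hL
  set a : ∀ b, Fin (e b) → F := fun b j => U ⟨b, ch b j.succ⟩ with ha
  set l : ∀ b, Fin (e b + 1) → F := fun b k => U ⟨b, ch' b k⟩ with hl
  have hUG : ∀ b c, U ⟨b, c⟩ = algebraMap K F (G b c 0)
      + ∑ j, algebraMap K F (G b c (Fin.succ j)) * a b j := by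
    intro b c
    have h := hG1 b F (fun c => U ⟨b, c⟩) (fun j => by
      simpa [Algebra.smul_def] using hsum b j) c
    simp only [Algebra.smul_def] at h
    rw [h, Fin.sum_univ_succ, hU1, mul_one]
  have hlL : ∀ b k, l b k = algebraMap K F (L b k 0)
      + ∑ j, algebraMap K F (L b k (Fin.succ j)) * a b j := fun b k => hUG b (ch' b k)
  have hl0 : ∀ b, l b 0 ≠ 0 := fun b => hU0 _
  refine ⟨∏ b, (L b).det, Finset.prod_ne_zero_iff.mpr fun b _ => hG3 b (ch' b), ?_⟩
  intro d q g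
  -- the logarithmic derivative of T'
  set c : (Σ b, Fin (e b)) → F := fun p =>
    (l p.1 0)⁻¹ * algebraMap K F (L p.1 0 p.2.succ) with hcdef
  have hlog : T'⁻¹ • D K F T' = T⁻¹ • D K F T + ∑ p, c p • D K F (a p.1 p.2) := by
    have h1 : ∀ b, D K F (l b 0) = ∑ j : Fin (e b), algebraMap K F (L b 0 j.succ) •
        D K F (a b j) := fun b => by rw [hlL, D_affine]
    have hprod : ∀ s : Finset B, (∏ b ∈ s, l b 0)⁻¹ • D K F (∏ b ∈ s, l b 0)
        = ∑ b ∈ s, (l b 0)⁻¹ • D K F (l b 0) := by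
      intro s
      induction s using Finset.induction_on with
      | empty => simp
      | insert b s hb ih =>
        rw [Finset.prod_insert hb, Finset.sum_insert hb, Derivation.leibniz, smul_add, smul_smul,
          smul_smul, ← ih]
        have h2 : (∏ b ∈ s, l b 0) ≠ 0 := Finset.prod_ne_zero_iff.mpr fun b _ => hl0 b
        have h3 := hl0 b
        rw [show (l b 0 * ∏ b ∈ s, l b 0)⁻¹ * l b 0 = (∏ b ∈ s, l b 0)⁻¹ by field_simp,
          show (l b 0 * ∏ b ∈ s, l b 0)⁻¹ * (∏ b ∈ s, l b 0) = (l b 0)⁻¹ by field_simp, add_comm]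
    have hP : (∏ b, l b 0) ≠ 0 := Finset.prod_ne_zero_iff.mpr fun b _ => hl0 b
    rw [hT', Derivation.leibniz, smul_add, smul_smul, smul_smul,
      show (T * ∏ b, l b 0)⁻¹ * T = (∏ b, l b 0)⁻¹ by field_simp,
      show (T * ∏ b, l b 0)⁻¹ * (∏ b, l b 0) = T⁻¹ by field_simp, hprod, add_comm,
      Fintype.sum_sigma]
    congr 1
    refine Finset.sum_congr rfl fun b _ => ?_
    rw [h1, Finset.smul_sum]
    refine Finset.sum_congr rfl fun j _ => ?_
    rw [smul_smul]
  -- the reindexing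
  set τ : Option (Σ b, Fin (e b)) ≃ Unit ⊕ (Σ b, Fin (e b)) :=
    (Equiv.optionEquivSumPUnit _).trans (Equiv.sumComm _ _) with hτ
  set g' := g.domDomCongr (q.trans τ) with hg'
  have hfam : ∀ (ch : ∀ b, Fin (e b + 1) ↪ ι b) (T : F) (U : Var ι → F) x,
      famA K ch T U x = Sum.elim (fun _ => T⁻¹ • D K F T)
        (fun p : Σ b, Fin (e b) => D K F (U ⟨p.1, ch p.1 p.2.succ⟩)) (τ x) := by
    intro ch T U x
    rcases x with _ | p <;> rfl
  have h1 : g (fun i => famA K ch' T' U' (q i)) = g' (Sum.elim (fun _ => T'⁻¹ • D K F T')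
      (fun p : Σ b, Fin (e b) => D K F (l p.1 p.2.succ / l p.1 0))) := by
    rw [hg', AlternatingMap.domDomCongr_apply]
    congr 1
    funext i
    rw [hfam]
    simp only [hU', hl]
    rfl
  have h2 : g (fun i => famA K ch T U (q i)) = g' (Sum.elim (fun _ => T⁻¹ • D K F T)
      (fun p : Σ b, Fin (e b) => D K F (a p.1 p.2))) := by
    rw [hg', AlternatingMap.domDomCongr_apply]
    congr 1
    funext i
    rw [hfam]
    rfl
  rw [h1, h2, wedge_quot_blocks (D K F) g' L a l hlL hl0 (T⁻¹ • D K F T) (T'⁻¹ • D K F T') c hlog,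
    smul_smul, ← Finset.prod_mul_distrib, map_prod]
  congr 1
  refine Finset.prod_congr rfl fun b _ => ?_
  have := hl0 b
  change l b 0 ^ (e b + 1) * _ = _
  field_simp

end Pool.Agent.T9h40.NA
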